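import Pool.Agent.H2.VN4

namespace Pool.Agent.Results.MP_d985a5_al.NotAll

open Pool.Agent.H2.VN

theorem result (K : Type) [Field K] :
    (∀ b d : ℤ, 0 ≤ b → ¬ Realizable K 1 b 1 d) ∧
    ¬ ∀ a b c d : ℤ, 1 ≤ a → -1 ≤ b → 1 ≤ c → 0 ≤ d →
      (∃ N : ℕ, ∀ k ≥ N, a * k + b ≤ c * k + d) → Realizable K a b c d :=
  ⟨not_real, fun h => not_real 0 0 le_rfl
    (h 1 0 1 0 le_rfl (by decide) le_rfl le_rfl ⟨0, fun _ _ => le_rfl⟩)⟩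

end Pool.Agent.Results.MP_d985a5_al.NotAll
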